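import Pool.Agent.Helper52.NF.St

set_option autoImplicit false

/-! Project NF, module HB: counting second ends. -/

namespace Pool.Agent.Helper8.NF

open Pool.Agent.Helper52.NF Finset

theorem hHB : StHB := by
  intro ε N _ _ α β J hB h0
  have key : ∀ v ∈ J.image β, 2 ≤ (J.filter (fun e => β e = v)).card := by
    intro v hv
    obtain ⟨e0, he0, rfl⟩ := Finset.mem_image.1 hv
    have h1 : bd α β J (β e0) = (((J.filter (fun e => β e = β e0)).card : ℕ) : ZMod 2) := by
      unfold bd
      rw [Finset.card_filter, Nat.cast_sum]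
      apply Finset.sum_congr rfl
      intro e he
      have h2 : α e ≠ β e0 := hB e he e0 he0
      rw [pt_ne (Ne.symm h2), zero_add]
      unfold pt
      by_cases h3 : β e = β e0
      · rw [if_pos h3.symm, if_pos h3, Nat.cast_one]
      · rw [if_neg (Ne.symm h3), if_neg h3, Nat.cast_zero]
    rw [h0 e0 he0] at h1
    have h4 : 2 ∣ (J.filter (fun e => β e = β e0)).card := (ZMod.natCast_eq_zero_iff _ _).1 h1.symm
    have h5 : 0 < (J.filter (fun e => β e = β e0)).card :=
      Finset.card_pos.2 ⟨e0, Finset.mem_filter.2 ⟨he0, rfl⟩⟩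
    exact Nat.le_of_dvd h5 h4
  rw [Finset.card_eq_sum_card_image β J]
  calc 2 * (J.image β).card = ∑ _v ∈ J.image β, 2 := by
        rw [Finset.sum_const, smul_eq_mul, mul_comm]
    _ ≤ ∑ v ∈ J.image β, (J.filter (fun e => β e = v)).card := Finset.sum_le_sum key

end Pool.Agent.Helper8.NF
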